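import Pool.Agent.SCT.StmtsA

/-!
SCT, row ANI: anisotropy.
-/

set_option autoImplicit false

namespace Pool.Agent.SCT.H21

open MvPolynomial

theorem ani (hI : IndStmt) : AniStmt := by
  intro k _ _ n f hf hns a ha hfa hdd
  have _ : Infinite k := IsAlgClosed.instInfinite
  have h1 := hI k (Fin (n + 2)) (n + 2) {f} 0 (fun i => pderiv i f)
    (by
      intro g hg
      rw [Set.mem_singleton_iff] at hg
      exact ⟨3, hg ▸ hf⟩)
    (isHomogeneous_zero _ _ _) (fun i => hf.pderiv)
    (by
      refine ⟨FT k n, inferInstance, Algebra.id _, ?_, a, ha, ?_⟩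
      · rw [Module.finrank_self]
        exact odd_one
      · intro g hg
        rcases hg with hg | hg
        · obtain ⟨g0, hg0, rfl⟩ := hg
          rw [Set.mem_singleton_iff] at hg0
          rw [hg0, aeval_map_algebraMap]
          exact hfa
        · rw [Set.mem_singleton_iff] at hg
          rw [hg, map_zero, zero_add, map_sum, ← hdd]
          unfold dd
          refine Finset.sum_congr rfl fun i _ => ?_
          rw [map_mul, aeval_C, aeval_map_algebraMap]
          rfl)
  obtain ⟨F, _, _, hodd, b, hb, hbz⟩ := h1
  have _ : FiniteDimensional k F := Module.finite_of_finrank_pos hodd.pos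
  have hbij := IsAlgClosed.algebraMap_bijective_of_isIntegral (k := k) (K := F)
  choose y hy using fun i => hbij.2 (b i)
  have hby : b = fun i => algebraMap k F (y i) := funext fun i => (hy i).symm
  have hev : ∀ g : MvPolynomial (Fin (n + 2)) k, aeval b g = 0 → eval y g = 0 := by
    intro g hg
    rw [hby] at hg
    have h2 : aeval (fun i => algebraMap k F (y i)) g = algebraMap k F (aeval y g) :=
      aeval_algebraMap_apply F y g
    rw [h2] at hg
    have h3 := (map_eq_zero_iff _ hbij.1).1 hg
    rwa [← coe_aeval_eq_eval]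
  have hy0 : y ≠ 0 := by
    rintro rfl
    apply hb
    rw [hby]
    funext i
    exact map_zero _
  obtain ⟨i, hi⟩ := hns y hy0 (hev f (hbz f (Or.inl (Or.inl rfl))))
  exact hi (hev _ (hbz _ (Or.inr ⟨i, rfl⟩)))

end Pool.Agent.SCT.H21
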