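import Pool.Agent.SCT.StmtsC

/-!
SCT, row FLA: the field of the pair is the field of the point.
-/

set_option autoImplicit false

namespace Pool.Agent.SCT.H21

open MvPolynomial

/-- the field generated by the multiple of a point by a transcendental element -/
theorem trd_mul (k Ω : Type) [Field k] [Field Ω] [Algebra k Ω] (m n : ℕ) (x : Fin m → Ω)
    (i : Fin m) (hi : x i ≠ 0) (α : Ω) (hα : Transcendental (rat k x) α)
    (hn : (n : Cardinal) ≤ Algebra.trdeg k (rat k x)) :
    ((n + 1 : ℕ) : Cardinal) ≤
      Algebra.trdeg k (IntermediateField.adjoin k (Set.range fun l => α * (x l / x i))) := by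
  have h0 : α ∈ IntermediateField.adjoin k (Set.range fun l => α * (x l / x i)) := by
    have h1 : α * (x i / x i) ∈ IntermediateField.adjoin k (Set.range fun l => α * (x l / x i)) :=
      IntermediateField.subset_adjoin _ _ ⟨i, rfl⟩
    rwa [div_self hi, mul_one] at h1
  have hα0 : α ≠ 0 := by
    rintro rfl
    exact hα isAlgebraic_zero
  have h2 : rat k x ≤ IntermediateField.adjoin k (Set.range fun l => α * (x l / x i)) := by
    rw [rat_eq hi, IntermediateField.adjoin_le_iff]
    rintro _ ⟨l, rfl⟩
    have h3 : α * (x l / x i) ∈ IntermediateField.adjoin k (Set.range fun l => α * (x l / x i)) :=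
      IntermediateField.subset_adjoin _ _ ⟨l, rfl⟩
    have h4 := div_mem h3 h0
    rwa [mul_div_cancel_left₀ _ hα0] at h4
  have h5 : (IntermediateField.adjoin (rat k x) {α}).restrictScalars k ≤
      IntermediateField.adjoin k (Set.range fun l => α * (x l / x i)) := by
    rw [IntermediateField.restrictScalars_adjoin, IntermediateField.adjoin_le_iff]
    rintro z (hz | hz)
    · exact h2 hz
    · rw [Set.mem_singleton_iff] at hz
      rw [hz]
      exact h0
  have h6 : Algebra.trdeg k (IntermediateField.adjoin (rat k x) {α}) ≤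
      Algebra.trdeg k (IntermediateField.adjoin k (Set.range fun l => α * (x l / x i))) :=
    trdeg_le_of_injective (IntermediateField.inclusion h5)
      (IntermediateField.inclusion_injective h5)
  refine le_trans ?_ h6
  rw [← trdeg_add_eq k (rat k x) (A := IntermediateField.adjoin (rat k x) {α})]
  push_cast
  refine add_le_add hn ?_
  have h7 : Transcendental (rat k x)
      (⟨α, IntermediateField.mem_adjoin_simple_self (rat k x) α⟩ :
        IntermediateField.adjoin (rat k x) {α}) := by
    intro h8
    exact hα ((isAlgebraic_algebraMap_iff (FaithfulSMul.algebraMap_injective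
      (IntermediateField.adjoin (rat k x) {α}) Ω)).2 h8)
  have h9 := (algebraicIndependent_unique_type_iff (ι := Unit) (x := fun _ =>
    (⟨α, IntermediateField.mem_adjoin_simple_self (rat k x) α⟩ :
      IntermediateField.adjoin (rat k x) {α}))).2 h7
  have h10 := h9.cardinalMk_le_trdeg
  simpa using h10

theorem fla (hC : CopStmt) (hA : AinStmt) : FlaStmt := by
  intro k _ n x w hx hw hspan hdim hlow y hy
  obtain ⟨i, hi⟩ := Function.ne_iff.1 hx
  obtain ⟨j, hj⟩ := Function.ne_iff.1 hw
  rw [Pi.zero_apply] at hi hj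
  obtain ⟨α, β, hT, hind⟩ := hA k n x w i j hi hj hspan hdim
  set C0 : IntermediateField k (FT k n) := rat k x ⊔ rat k w with hC0
  -- `x'`, `w'`, `y` in `C`
  have hx1 : ∀ l, x l / x i ∈ rat k x := fun l => IntermediateField.subset_adjoin _ _ ⟨l, i, rfl⟩
  have hw1 : ∀ l, w l / w j ∈ rat k w := fun l => IntermediateField.subset_adjoin _ _ ⟨l, j, rfl⟩
  have hx2 : ∀ l, x l / x i ∈ C0 := fun l => (le_sup_left : rat k x ≤ C0) (hx1 l)
  have hw2 : ∀ l, w l / w j ∈ C0 := fun l => (le_sup_right : rat k w ≤ C0) (hw1 l)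
  have hy2 : y ∈ C0 := (le_sup_right : rat k w ≤ C0) hy
  -- the fraction
  obtain ⟨g, h, hrel, hgh⟩ :=
    IsFractionRing.exists_reduced_fraction (MvPolynomial (Fin (n + 2)) k) (K := FT k n) y
  have hgh' : y * aeval (gen k n) (h : MvPolynomial (Fin (n + 2)) k) = aeval (gen k n) g := by
    rw [aeval_gen, aeval_gen, ← hgh, IsLocalization.mk'_spec]
  -- the polynomial in two variables
  let Φ : MvPolynomial (Fin (n + 2)) k →ₐ[k] MvPolynomial (Fin 2) C0 :=
    aeval fun l => X 0 * C (⟨x l / x i, hx2 l⟩ : C0) + X 1 * C (⟨w l / w j, hw2 l⟩ : C0)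
  have hΦ : ∀ q : MvPolynomial (Fin (n + 2)) k,
      aeval (![α, β] : Fin 2 → FT k n) (Φ q) = aeval (gen k n) q := by
    have h1 : ((aeval (![α, β] : Fin 2 → FT k n) :
        MvPolynomial (Fin 2) C0 →ₐ[C0] FT k n).restrictScalars k).comp Φ = aeval (gen k n) := by
      apply MvPolynomial.algHom_ext
      intro l
      rw [AlgHom.comp_apply]
      change aeval (![α, β] : Fin 2 → FT k n) (Φ (X l)) = aeval (gen k n) (X l)
      rw [aeval_X (gen k n) l]
      rw [hT l]
      simp only [Φ, aeval_X, map_add, map_mul, aeval_C, Matrix.cons_val_zero, Matrix.cons_val_one]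
      rfl
    intro q
    exact AlgHom.congr_fun h1 q
  have hP : C (⟨y, hy2⟩ : C0) * Φ (h : MvPolynomial (Fin (n + 2)) k) - Φ g = 0 := by
    apply hind.eq_zero_of_aeval_eq_zero
    rw [map_sub, map_mul, hΦ, hΦ, aeval_C]
    change y * _ - _ = 0
    rw [hgh', sub_self]
  -- set the second variable to zero
  let Ψ : MvPolynomial (Fin (n + 2)) k →ₐ[k] Polynomial (FT k n) :=
    aeval fun l => Polynomial.X * Polynomial.C (x l / x i)
  have hΨ : ∀ q : MvPolynomial (Fin (n + 2)) k,
      aeval (![Polynomial.X, 0] : Fin 2 → Polynomial (FT k n)) (Φ q) = Ψ q := by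
    have h1 : ((aeval (![Polynomial.X, 0] : Fin 2 → Polynomial (FT k n)) :
        MvPolynomial (Fin 2) C0 →ₐ[C0] Polynomial (FT k n)).restrictScalars k).comp Φ = Ψ := by
      apply MvPolynomial.algHom_ext
      intro l
      rw [AlgHom.comp_apply]
      change aeval (![Polynomial.X, 0] : Fin 2 → Polynomial (FT k n)) (Φ (X l)) = Ψ (X l)
      simp only [Φ, Ψ, aeval_X, map_add, map_mul, aeval_C, Matrix.cons_val_zero,
        Matrix.cons_val_one, zero_mul, add_zero]
      rfl
    intro q
    exact AlgHom.congr_fun h1 q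
  have hP2 : Polynomial.C y * Ψ (h : MvPolynomial (Fin (n + 2)) k) = Ψ g := by
    have h1 := congrArg (aeval (![Polynomial.X, 0] : Fin 2 → Polynomial (FT k n))) hP
    rw [map_sub, map_mul, hΨ, hΨ, map_zero, aeval_C] at h1
    exact sub_eq_zero.1 h1
  -- the coefficients are in `rat k x`
  let Θ : MvPolynomial (Fin (n + 2)) k →ₐ[k] Polynomial (rat k x) :=
    aeval fun l => Polynomial.X * Polynomial.C (⟨x l / x i, hx1 l⟩ : rat k x)
  have hΘ : ∀ q : MvPolynomial (Fin (n + 2)) k,
      (Θ q).map (algebraMap (rat k x) (FT k n)) = Ψ q := by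
    have h1 : (Polynomial.mapAlgHom (IsScalarTower.toAlgHom k (rat k x) (FT k n))).comp Θ = Ψ := by
      apply MvPolynomial.algHom_ext
      intro l
      rw [AlgHom.comp_apply]
      simp only [Θ, Ψ, aeval_X, Polynomial.coe_mapAlgHom, Polynomial.map_mul, Polynomial.map_X,
        Polynomial.map_C]
      rfl
    intro q
    exact AlgHom.congr_fun h1 q
  by_cases hz : ∃ e, (Θ (h : MvPolynomial (Fin (n + 2)) k)).coeff e ≠ 0
  · obtain ⟨e, he⟩ := hz
    have h1 := congrArg (fun p => Polynomial.coeff p e) hP2
    simp only [Polynomial.coeff_C_mul] at h1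
    rw [← hΘ, ← hΘ, Polynomial.coeff_map, Polynomial.coeff_map] at h1
    have h2 : y = ((Θ g).coeff e / (Θ (h : MvPolynomial (Fin (n + 2)) k)).coeff e : rat k x) := by
      have h3 : algebraMap (rat k x) (FT k n) ((Θ (h : MvPolynomial (Fin (n + 2)) k)).coeff e) ≠ 0 :=
        (map_ne_zero _).2 he
      have h4 : y = algebraMap (rat k x) (FT k n) ((Θ g).coeff e) /
          algebraMap (rat k x) (FT k n) ((Θ (h : MvPolynomial (Fin (n + 2)) k)).coeff e) :=
        (eq_div_iff h3).2 h1
      rw [h4, ← map_div₀]
      rfl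
    rw [h2]
    exact SetLike.coe_mem _
  · exfalso
    push Not at hz
    have h1 : Ψ (h : MvPolynomial (Fin (n + 2)) k) = 0 := by
      rw [← hΘ]
      have : Θ (h : MvPolynomial (Fin (n + 2)) k) = 0 := Polynomial.ext fun e => by
        rw [hz e, Polynomial.coeff_zero]
      rw [this, Polynomial.map_zero]
    have h2 : Ψ g = 0 := by rw [← hP2, h1, mul_zero]
    -- evaluate at `α`
    have hev : ∀ q : MvPolynomial (Fin (n + 2)) k,
        Polynomial.aeval α (Ψ q) = aeval (fun l => α * (x l / x i)) q := by
      have h3 : ((Polynomial.aeval α : Polynomial (FT k n) →ₐ[FT k n] FT k n).restrictScalars k).comp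
          Ψ = aeval (fun l => α * (x l / x i)) := by
        apply MvPolynomial.algHom_ext
        intro l
        rw [AlgHom.comp_apply]
        change Polynomial.aeval α (Ψ (X l)) = _
        simp only [Ψ, aeval_X, map_mul, Polynomial.aeval_X, Polynomial.aeval_C]
        rfl
      intro q
      exact AlgHom.congr_fun h3 q
    have h3 : aeval (fun l => α * (x l / x i)) (h : MvPolynomial (Fin (n + 2)) k) = 0 := by
      rw [← hev, h1, map_zero]
    have h4 : aeval (fun l => α * (x l / x i)) g = 0 := by
      rw [← hev, h2, map_zero]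
    -- transcendence degrees
    have h5 : Algebra.trdeg k (rat k x) ≤ n := by
      refine le_trans ?_ hdim
      exact trdeg_le_of_injective
        (IntermediateField.inclusion (le_sup_left : rat k x ≤ rat k x ⊔ rat k w))
        (IntermediateField.inclusion_injective _)
    obtain ⟨m, hm⟩ := Cardinal.lt_aleph0.1 (lt_of_le_of_lt h5 (Cardinal.natCast_lt_aleph0))
    have h6 : n ≤ m := hlow m (by unfold DimLe; rw [hm])
    have h7 : (n : Cardinal) ≤ Algebra.trdeg k (rat k x) := by
      rw [hm]
      exact_mod_cast h6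
    have h8 : Transcendental (rat k x) α := by
      have h9 : Transcendental C0 α := by
        have := hind.transcendental 0
        simpa using this
      rintro ⟨p, hp0, hp⟩
      apply h9
      refine ⟨p.map (IntermediateField.inclusion (le_sup_left : rat k x ≤ C0)).toRingHom, ?_, ?_⟩
      · rw [Ne, Polynomial.map_eq_zero_iff (IntermediateField.inclusion_injective _)]
        exact hp0
      · rw [← hp, Polynomial.aeval_def, Polynomial.aeval_def, Polynomial.eval₂_map]
        rfl
    exact hC k (FT k n) (n + 1) g h (fun l => α * (x l / x i)) hrel h4 h3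
      (trd_mul k (FT k n) (n + 2) n x i hi α h8 h7)

end Pool.Agent.SCT.H21
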